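import Pool.Agent.Helper76.Q2.GDb

set_option autoImplicit false

namespace Pool.Agent.Helper76.Q2

open MeasureTheory Set Filter Topology Pool.Agent.Helper57.QZ

open scoped ArithmeticFunction.vonMangoldt

theorem zd5 (τ : ℝ) : deriv riemannZeta (pt 5 τ) / riemannZeta (pt 5 τ) =
    ∑' n : ℕ, (-(Λ n : ℂ)) * (n : ℂ) ^ (-(pt 5 τ)) := by
  have hre : 1 < (pt 5 τ).re := by
    simp [pt]
  have h := ArithmeticFunction.LSeries_vonMangoldt_eq_deriv_riemannZeta_div hre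
  have h2 : deriv riemannZeta (pt 5 τ) / riemannZeta (pt 5 τ) =
      -(LSeries (fun n => (Λ n : ℂ)) (pt 5 τ)) := by
    rw [h]
    ring
  rw [h2, LSeries, ← tsum_neg]
  apply tsum_congr
  intro n
  rw [LSeries.term_def]
  split_ifs with hn
  · subst hn
    simp
  · rw [Complex.cpow_neg]
    ring

theorem sum5 : Summable (fun n : ℕ => ‖(-(Λ n : ℂ))‖ * (n : ℝ) ^ (-(5:ℝ))) := by
  refine Summable.of_nonneg_of_le (fun n => by positivity) (fun n => ?_)
    (Real.summable_nat_rpow.2 (show (-(4:ℝ)) < -1 by norm_num))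
  rw [norm_neg, Complex.norm_real, Real.norm_eq_abs,
    abs_of_nonneg ArithmeticFunction.vonMangoldt_nonneg]
  rcases Nat.eq_zero_or_pos n with h | h
  · subst h
    simp
  · have h0 : (0:ℝ) < n := by exact_mod_cast h
    calc Λ n * (n : ℝ) ^ (-(5:ℝ)) ≤ (n : ℝ) ^ (1:ℝ) * (n : ℝ) ^ (-(5:ℝ)) := by
          have := Lam_le n
          rw [Real.rpow_one]
          gcongr
      _ = _ := by
          rw [← Real.rpow_add h0]
          norm_num

theorem fdiff {s : ℂ} (hs : s ≠ 1) (h0 : riemannZeta s ≠ 0) :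
    DifferentiableAt ℂ (fun s => deriv riemannZeta s / riemannZeta s) s := by
  have hd := differentiableAt_riemannZeta hs
  have hO : DifferentiableOn ℂ riemannZeta ({1}ᶜ : Set ℂ) := fun w hw =>
    (differentiableAt_riemannZeta hw).differentiableWithinAt
  have hd2 : DifferentiableAt ℂ (deriv riemannZeta) s :=
    (hO.deriv isOpen_compl_singleton).differentiableAt (isOpen_compl_singleton.mem_nhds hs)
  exact hd2.div hd h0

theorem zA_tendsto {A : ℝ} (hA : 0 < A) : Tendsto (fun T : ℝ => zA A T) atTop atTop :=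
  tendsto_nat_floor_atTop.comp ((tendsto_rpow_atTop hA).comp Real.tendsto_log_atTop)

noncomputable def EE (A T : ℝ) : ℝ := Real.log T ^ (16 * A) * Real.exp (-1 * Real.log T)

theorem EE_tendsto (A : ℝ) : Tendsto (EE A) atTop (𝓝 0) :=
  (tendsto_rpow_mul_exp_neg_mul_atTop_nhds_zero (16 * A) 1 one_pos).comp Real.tendsto_log_atTop

noncomputable def BB (C C1 C2 ε A T : ℝ) : ℝ :=
  C2 * C1 * (8 * Real.log T ^ (-(1 / 2) : ℝ) + EE A T) +
    (4 * C * ((zA A T : ℝ)⁻¹ + EE A T) + ∑' n : ℕ, tl C ε (n + (zA A T + 1)))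

theorem BB_tendsto (C C1 C2 ε : ℝ) {A : ℝ} (hA : 0 < A) :
    Tendsto (BB C C1 C2 ε A) atTop (𝓝 0) := by
  have h1 : Tendsto (fun T : ℝ => Real.log T ^ (-(1 / 2) : ℝ)) atTop (𝓝 0) :=
    (tendsto_rpow_neg_atTop (by norm_num : (0:ℝ) < 1 / 2)).comp Real.tendsto_log_atTop
  have h2 := EE_tendsto A
  have h3 : Tendsto (fun T : ℝ => ((zA A T : ℝ))⁻¹) atTop (𝓝 0) :=
    (tendsto_inv_atTop_nhds_zero_nat (𝕜 := ℝ)).comp (zA_tendsto hA)
  have h4 : Tendsto (fun T : ℝ => ∑' n : ℕ, tl C ε (n + (zA A T + 1))) atTop (𝓝 0) :=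
    (tendsto_sum_nat_add (tl C ε)).comp ((tendsto_add_atTop_nat 1).comp (zA_tendsto hA))
  have h := (((h1.const_mul 8).add h2).const_mul (C2 * C1)).add
    (((h3.add h2).const_mul (4 * C)).add h4)
  have h' : Tendsto (BB C C1 C2 ε A) atTop
      (𝓝 (C2 * C1 * (8 * 0 + 0) + (4 * C * (0 + 0) + 0))) := h
  have h0 : C2 * C1 * (8 * 0 + 0) + (4 * C * (0 + 0) + 0) = (0:ℝ) := by ring
  rwa [h0] at h'

theorem gd1_of (hLD : ST_LD) (hKE1 : ST_KE1) (hKE2 : ST_KE2) : ST_GD1 := by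
  intro ε hε
  have hε0 := hε.1
  have hε1 := hε.2
  obtain ⟨C1, T1, hC1, hT1, hLD⟩ := hLD ε hε
  obtain ⟨C, hC, hKE1⟩ := hKE1
  obtain ⟨C2, hC2, hKE2⟩ := hKE2 ε hε
  refine ⟨max 3 (1 / ε), le_max_left _ _, fun A hA η hη => ?_⟩
  have hA3 : 3 ≤ A := (le_max_left _ _).trans hA
  have hAε : 1 ≤ A * ε := by
    have : 1 / ε ≤ A := (le_max_right _ _).trans hA
    rwa [div_le_iff₀ hε0] at this
  have hev : ∀ᶠ T : ℝ in atTop, 2 ≤ Real.log T ∧ EE A T ≤ 1 ∧ BB C C1 C2 ε A T ≤ η :=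
    (Real.tendsto_log_atTop.eventually_ge_atTop 2).and
      (((EE_tendsto A).eventually_le_const one_pos).and
        ((BB_tendsto C C1 C2 ε (by linarith : 0 < A)).eventually_le_const hη))
  obtain ⟨T2, hT2⟩ := eventually_atTop.1 hev
  refine ⟨max 4 (max T1 T2), le_max_left _ _, fun T hT x hx t ht hgood => ?_⟩
  have hT4 : 4 ≤ T := (le_max_left _ _).trans hT
  have hTT1 : T1 ≤ T := ((le_max_left _ _).trans (le_max_right _ _)).trans hT
  have hTT2 : T2 ≤ T := ((le_max_right _ _).trans (le_max_right _ _)).trans hT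
  obtain ⟨hL2, hE1, hB⟩ := hT2 T hTT2
  refine le_trans ?_ hB
  set H := Real.log T with hH
  set z := zA A T with hz
  have hH0 : 0 < H := by linarith
  have hHT : H ≤ T - 1 := Real.log_le_sub_one_of_pos (by linarith)
  have hLA : 8 ≤ H ^ A := by
    calc (8:ℝ) = 2 ^ (3:ℝ) := by norm_num
      _ ≤ H ^ (3:ℝ) := Real.rpow_le_rpow (by norm_num) hL2 (by norm_num)
      _ ≤ H ^ A := Real.rpow_le_rpow_of_exponent_le (by linarith) hA3
  have hz1 : (z : ℝ) ≤ H ^ A := Nat.floor_le (by positivity)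
  have hz2 : H ^ A / 2 ≤ z := by
    have : H ^ A < z + 1 := Nat.lt_floor_add_one _
    linarith
  have hz4 : (4:ℝ) ≤ z := by linarith
  have hz0 : (0:ℝ) < z := by linarith
  have hz2n : 2 ≤ z := by
    have : (2:ℝ) ≤ z := by linarith
    exact_mod_cast this
  set Y : ℝ := (z : ℝ) ^ 3 with hY
  have hY2 : 2 ≤ Y := by
    have : (4:ℝ) ^ 3 ≤ (z : ℝ) ^ 3 := by gcongr
    rw [hY]; linarith
  have hY0 : 0 < Y := by linarith
  set δ : ℝ := Y ^ (5:ℝ) * Real.exp (-(H ^ 2)) with hδ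
  have hδ0 : 0 ≤ δ := by positivity
  have hexp : Real.exp (-(H ^ 2)) ≤ Real.exp (-1 * H) := by
    apply Real.exp_le_exp.2
    nlinarith
  have hY5 : Y ^ (5:ℝ) ≤ H ^ (15 * A) := by
    have h1 : Y ^ (5:ℝ) = (z : ℝ) ^ (15:ℝ) := by
      rw [hY, ← Real.rpow_natCast, ← Real.rpow_mul hz0.le]
      norm_num
    rw [h1]
    calc (z : ℝ) ^ (15:ℝ) ≤ (H ^ A) ^ (15:ℝ) := Real.rpow_le_rpow hz0.le hz1 (by norm_num)
      _ = _ := by
        rw [← Real.rpow_mul hH0.le]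
        congr 1
        ring
  have hH1 : 1 ≤ H := by linarith
  have hδ' : δ ≤ H ^ (15 * A) * Real.exp (-1 * H) := by
    rw [hδ]
    gcongr
  have hEE : EE A T = H ^ A * (H ^ (15 * A) * Real.exp (-1 * H)) := by
    unfold EE
    rw [← hH, ← mul_assoc, ← Real.rpow_add hH0]
    congr 2
    ring
  have hzδ : z * δ ≤ EE A T := by
    rw [hEE]
    gcongr
  have hHA : H ≤ H ^ A := by
    calc H = H ^ (1:ℝ) := (Real.rpow_one _).symm
      _ ≤ H ^ A := Real.rpow_le_rpow_of_exponent_le hH1 (by linarith)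
  have hHδ : H * δ ≤ EE A T := by
    rw [hEE]
    gcongr
  have hδE : δ ≤ EE A T := by
    refine le_trans ?_ hHδ
    nlinarith
  have hδ1 : δ ≤ 1 := hδE.trans hE1
  have hYε : H * Y ^ (-(ε / 2)) ≤ 8 * H ^ (-(1 / 2) : ℝ) := by
    have h1 : H ^ (3 * A) / 8 ≤ Y := by
      have h2 : (H ^ A / 2) ^ 3 ≤ Y := by
        rw [hY]
        gcongr
      have h3 : H ^ (3 * A) = (H ^ A) ^ 3 := by
        rw [← Real.rpow_natCast, ← Real.rpow_mul hH0.le]
        congr 1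
        push_cast
        ring
      rw [h3]
      calc (H ^ A) ^ 3 / 8 = (H ^ A / 2) ^ 3 := by ring
        _ ≤ Y := h2
    have h4 : Y ^ (-(ε / 2)) ≤ 8 * H ^ (-(3 / 2) : ℝ) := by
      calc Y ^ (-(ε / 2)) ≤ (H ^ (3 * A) / 8) ^ (-(ε / 2)) :=
            Real.rpow_le_rpow_of_nonpos (by positivity) h1 (by linarith)
        _ = (8:ℝ) ^ (ε / 2) * H ^ (-(3 * A * (ε / 2))) := by
            rw [Real.div_rpow (by positivity) (by norm_num), ← Real.rpow_mul hH0.le,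
              Real.rpow_neg (by norm_num : (0:ℝ) ≤ 8), div_inv_eq_mul, mul_comm]
            congr 2
            ring
        _ ≤ (8:ℝ) ^ (1:ℝ) * H ^ (-(3 / 2) : ℝ) := by
            have h5 : (8:ℝ) ^ (ε / 2) ≤ (8:ℝ) ^ (1:ℝ) :=
              Real.rpow_le_rpow_of_exponent_le (by norm_num) (by linarith)
            have h6 : H ^ (-(3 * A * (ε / 2))) ≤ H ^ (-(3 / 2) : ℝ) :=
              Real.rpow_le_rpow_of_exponent_le hH1 (by linarith)
            gcongr
        _ = _ := by rw [Real.rpow_one]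
    calc H * Y ^ (-(ε / 2)) ≤ H ^ (1:ℝ) * (8 * H ^ (-(3 / 2) : ℝ)) := by
          rw [Real.rpow_one]
          gcongr
      _ = 8 * (H ^ (1:ℝ) * H ^ (-(3 / 2) : ℝ)) := by ring
      _ = _ := by
          rw [← Real.rpow_add hH0]
          norm_num
  -- the smoothed formula
  have hf : ∀ s : ℂ, s.re ∈ Icc (1 / 2 + ε / 2) 5 → |s.im - t| ≤ H →
      DifferentiableAt ℂ (fun s => deriv riemannZeta s / riemannZeta s) s ∧
      ‖(fun s => deriv riemannZeta s / riemannZeta s) s‖ ≤ C1 * H := by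
    intro s hs1 hs2
    have h1 := hLD T hTT1 t ht hgood s.re hs1 s.im hs2
    have h2 : pt s.re s.im = s := Complex.re_add_im s
    rw [h2] at h1
    refine ⟨fdiff ?_ h1.1, h1.2⟩
    rintro rfl
    rw [Complex.one_im, zero_sub, abs_neg] at hs2
    have := le_abs_self t
    have := ht.1
    linarith
  have hA1 := hKE2 Y H (C1 * H) x t (fun s => deriv riemannZeta s / riemannZeta s)
    (fun n => -(Λ n : ℂ)) hY2 hH1 hx hf (by simp) sum5 zd5
  have hx12 : x ∈ Icc (1 / 2 : ℝ) 4 := ⟨by linarith [hx.1], hx.2⟩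
  have hA2 := core hε0 hC hz2n (x := x) (t := t) hx (fun n => KK Y H x n) hδ0 hδ1
    (fun n hn => (hKE1 Y H x n hY2 hH1 hx12 hn).1)
    (fun n hn hn' => (hKE1 Y H x n hY2 hH1 hx12 hn).2 hn')
  set S : ℂ := ∑' n : ℕ, (-(Λ n : ℂ)) * (n : ℂ) ^ (-(pt x t)) * KK Y H x n with hS
  set P : ℂ := ∑ p ∈ Pz z, ((Real.log p * (p : ℝ) ^ (-x) : ℝ) : ℂ) * KK Y H x p *
        Complex.exp (-((t * Real.log p : ℝ) * Complex.I)) with hP
  have hsplit : deriv riemannZeta (pt x t) / riemannZeta (pt x t) - Wy z x (lin z t) + P =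
      (deriv riemannZeta (pt x t) / riemannZeta (pt x t) - S) + (S - Wy z x (lin z t) + P) := by
    ring
  rw [hsplit]
  refine (norm_add_le _ _).trans ?_
  unfold BB
  rw [← hz, ← hH]
  refine add_le_add ?_ ?_
  · refine hA1.trans ?_
    calc C2 * (C1 * H) * (Y ^ (-(ε / 2)) + Y ^ (5:ℝ) * Real.exp (-(H ^ 2)))
        = C2 * C1 * (H * Y ^ (-(ε / 2)) + H * δ) := by rw [hδ]; ring
      _ ≤ _ := by gcongr
  · refine hA2.trans ?_
    rw [one_div]
    gcongr

end Pool.Agent.Helper76.Q2
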