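import Pool.Agent.Helper57.QZ.Stmts2

set_option autoImplicit false

namespace Pool.Agent.Helper76.Q2

open MeasureTheory Set Filter Topology Pool.Agent.Helper57.QZ

open scoped ArithmeticFunction.vonMangoldt

theorem cpw (x t : ℝ) {n : ℕ} (hn : n ≠ 0) :
    (n : ℂ) ^ (-(pt x t)) =
      (((n : ℝ) ^ (-x) : ℝ) : ℂ) * Complex.exp (-((t * Real.log n : ℝ) * Complex.I)) := by
  have hn' : (n : ℂ) ≠ 0 := by exact_mod_cast hn
  have hp : (0:ℝ) < n := by exact_mod_cast Nat.pos_of_ne_zero hn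
  rw [Complex.cpow_def_of_ne_zero hn', Real.rpow_def_of_pos hp, Complex.ofReal_exp,
    ← Complex.natCast_log, ← Complex.exp_add]
  congr 1
  unfold pt
  push_cast
  ring

theorem ncpw (x t : ℝ) {n : ℕ} (hn : n ≠ 0) : ‖(n : ℂ) ^ (-(pt x t))‖ = (n : ℝ) ^ (-x) := by
  rw [Complex.norm_natCast_cpow_of_pos (Nat.pos_of_ne_zero hn)]
  congr 1
  simp [pt]

/-- the prime powers that are not primes -/
noncomputable def qq (e : ℝ) (n : ℕ) : ℝ := if n.Prime then 0 else Λ n * (n : ℝ) ^ (-e)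

theorem qq_nonneg (e : ℝ) (n : ℕ) : 0 ≤ qq e n := by
  unfold qq
  split_ifs
  · exact le_rfl
  · exact mul_nonneg ArithmeticFunction.vonMangoldt_nonneg (by positivity)

theorem qq_summable {ε : ℝ} (hε : 0 < ε) : Summable (qq (1 / 2 + ε)) := by
  set e := 1 / 2 + ε with he
  let g : Nat.Primes × ℕ → ℕ := fun x => (x.1 : ℕ) ^ (x.2 + 2)
  have hg : Function.Injective g := by
    rintro ⟨p, k⟩ ⟨p', k'⟩ h
    have h1 : (p : ℕ) ^ (k + 1 + 1) = (p' : ℕ) ^ (k' + 1 + 1) := h
    obtain ⟨h2, h3⟩ := Nat.Prime.pow_inj p.2 p'.2 h1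
    have h4 : k = k' := by omega
    have h5 : p = p' := Subtype.ext h2
    rw [h4, h5]
  rw [← Function.Injective.summable_iff hg]
  · have h2 : (2:ℝ) ^ (-e) < 1 := Real.rpow_lt_one_of_one_lt_of_neg (by norm_num) (by linarith)
    have hA : Summable (fun p : Nat.Primes => 1 / ε * ((p : ℕ) : ℝ) ^ (-1 - ε)) :=
      (Nat.Primes.summable_rpow.2 (by linarith)).mul_left _
    have hB : Summable (fun k : ℕ => ((2:ℝ) ^ (-e)) ^ k) :=
      summable_geometric_of_lt_one (by positivity) h2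
    have hAB := hA.mul_of_nonneg hB (fun p => by positivity) (fun k => by positivity)
    refine Summable.of_nonneg_of_le (fun x => qq_nonneg _ _) (fun x => ?_) hAB
    obtain ⟨p, k⟩ := x
    have hp : (2:ℝ) ≤ (p : ℕ) := by exact_mod_cast p.2.two_le
    have hp0 : (0:ℝ) < (p : ℕ) := by linarith
    show qq e ((p : ℕ) ^ (k + 2)) ≤ 1 / ε * ((p : ℕ) : ℝ) ^ (-1 - ε) * ((2:ℝ) ^ (-e)) ^ k
    unfold qq
    split_ifs
    · positivity
    rw [ArithmeticFunction.vonMangoldt_apply_pow (by omega),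
      ArithmeticFunction.vonMangoldt_apply_prime p.2]
    push_cast
    have h3 : ((((p : ℕ) : ℝ)) ^ (k + 2)) ^ (-e) =
        ((p : ℕ) : ℝ) ^ (-(2 * e)) * ((((p : ℕ) : ℝ)) ^ (-e)) ^ k := by
      rw [← Real.rpow_natCast, ← Real.rpow_mul hp0.le, ← Real.rpow_natCast (_ ^ (-e)),
        ← Real.rpow_mul hp0.le, ← Real.rpow_add hp0]
      congr 1
      push_cast
      ring
    rw [h3]
    have h4 : Real.log (p : ℕ) ≤ ((p : ℕ) : ℝ) ^ ε / ε := Real.log_le_rpow_div hp0.le hε
    have h5 : (((p : ℕ) : ℝ)) ^ (-e) ≤ (2:ℝ) ^ (-e) :=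
      Real.rpow_le_rpow_of_nonpos (by norm_num) hp (by linarith)
    calc Real.log (p : ℕ) * (((p : ℕ) : ℝ) ^ (-(2 * e)) * ((((p : ℕ) : ℝ)) ^ (-e)) ^ k)
        ≤ ((p : ℕ) : ℝ) ^ ε / ε * (((p : ℕ) : ℝ) ^ (-(2 * e)) * ((2:ℝ) ^ (-e)) ^ k) := by
          gcongr
      _ = 1 / ε * (((p : ℕ) : ℝ) ^ ε * ((p : ℕ) : ℝ) ^ (-(2 * e))) * ((2:ℝ) ^ (-e)) ^ k := by
          ring
      _ = _ := by
          rw [← Real.rpow_add hp0]
          congr 3
          rw [he]; ring
  · intro n hn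
    unfold qq
    split_ifs with h
    · rfl
    have : Λ n = 0 := by
      rw [ArithmeticFunction.vonMangoldt_eq_zero_iff]
      intro h1
      rw [isPrimePow_nat_iff] at h1
      obtain ⟨p, k, hp, hk, rfl⟩ := h1
      apply hn
      have hk2 : 2 ≤ k := by
        by_contra hk2
        have : k = 1 := by omega
        subst this
        rw [pow_one] at h
        exact h hp
      refine ⟨(⟨p, hp⟩, k - 2), ?_⟩
      show p ^ (k - 2 + 2) = p ^ k
      congr 1
      omega
    rw [this, zero_mul]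

theorem pow_cpow (n m : ℕ) (s : ℂ) : ((n ^ m : ℕ) : ℂ) ^ s = ((n : ℂ) ^ s) ^ m := by
  induction m with
  | zero => simp
  | succ m ih =>
    rw [pow_succ, Nat.cast_mul, Complex.natCast_mul_natCast_cpow, ih, pow_succ]

theorem Wy_hasSum (y : ℕ) (x t : ℝ) (hx : 0 < x) :
    HasSum (fun n : ℕ => if n.minFac ≤ y then (Λ n : ℂ) * (n : ℂ) ^ (-(pt x t)) else 0)
      (-(Wy y x (lin y t))) := by
  have h1 : ∀ p : Pr y, HasSum (fun n : ℕ => if n.minFac = (p : ℕ) then
      (Λ n : ℂ) * (n : ℂ) ^ (-(pt x t)) else 0)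
      ((Real.log p : ℂ) * (Complex.exp (-((lin y t p : ℂ) * Complex.I)) * (aa x p : ℂ)) /
        (1 - Complex.exp (-((lin y t p : ℂ) * Complex.I)) * (aa x p : ℂ))) := by
    intro p
    have hp : (p : ℕ).Prime := (Nat.mem_primesBelow.1 p.2).2
    have hp0 : (p : ℕ) ≠ 0 := hp.ne_zero
    have hp1 : (1:ℝ) < ((p : ℕ) : ℝ) := by exact_mod_cast hp.one_lt
    set P : ℂ := ((p : ℕ) : ℂ) ^ (-(pt x t)) with hP
    have hPe : Complex.exp (-((lin y t p : ℂ) * Complex.I)) * (aa x p : ℂ) = P := by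
      rw [hP, cpw x t hp0, mul_comm]
      rfl
    rw [hPe]
    have hPn : ‖P‖ < 1 := by
      rw [hP, ncpw x t hp0]
      exact Real.rpow_lt_one_of_one_lt_of_neg hp1 (by linarith)
    have hgeo : HasSum (fun k : ℕ => (Real.log p : ℂ) * P * P ^ k)
        ((Real.log p : ℂ) * P * (1 - P)⁻¹) :=
      (hasSum_geometric_of_norm_lt_one hPn).mul_left _
    rw [← div_eq_mul_inv] at hgeo
    let g : ℕ → ℕ := fun k => (p : ℕ) ^ (k + 1)
    have hg : Function.Injective g := by
      intro k k' h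
      have h' : k + 1 = k' + 1 := Nat.pow_right_injective hp.two_le h
      omega
    rw [← Function.Injective.hasSum_iff hg]
    · convert hgeo using 1
      funext k
      show (if ((p : ℕ) ^ (k + 1)).minFac = (p : ℕ) then
        (Λ ((p : ℕ) ^ (k + 1)) : ℂ) * (((p : ℕ) ^ (k + 1) : ℕ) : ℂ) ^ (-(pt x t)) else 0) = _
      rw [if_pos (hp.pow_minFac (by omega)),
        ArithmeticFunction.vonMangoldt_apply_pow (by omega),
        ArithmeticFunction.vonMangoldt_apply_prime hp, mul_assoc, ← pow_succ', hP]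
      congr 1
      exact pow_cpow _ _ _
    · intro n hn
      split_ifs with h
      · have : Λ n = 0 := by
          rw [ArithmeticFunction.vonMangoldt_eq_zero_iff]
          intro h1
          rw [isPrimePow_nat_iff] at h1
          obtain ⟨q, k, hq, hk, rfl⟩ := h1
          rw [hq.pow_minFac hk.ne'] at h
          subst h
          apply hn
          refine ⟨k - 1, ?_⟩
          show (p : ℕ) ^ (k - 1 + 1) = (p : ℕ) ^ k
          congr 1
          omega
        rw [this]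
        simp
      · rfl
  have h2 := hasSum_sum (fun (p : Pr y) (_ : p ∈ Finset.univ) => h1 p)
  unfold Wy
  rw [neg_neg]
  convert h2 using 1
  funext n
  by_cases hn : n = 1
  · subst hn
    simp [ArithmeticFunction.vonMangoldt_apply_one]
  have hq := Nat.minFac_prime hn
  by_cases hy : n.minFac ≤ y
  · rw [if_pos hy, Finset.sum_eq_single (⟨n.minFac, Nat.mem_primesBelow.2
      ⟨by omega, hq⟩⟩ : Pr y)]
    · rw [if_pos rfl]
    · intro p _ hne
      rw [if_neg]
      intro h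
      apply hne
      exact Subtype.ext h.symm
    · intro h
      exact absurd (Finset.mem_univ _) h
  · rw [if_neg hy, Finset.sum_eq_zero]
    intro p _
    rw [if_neg]
    intro h
    have := (Nat.mem_primesBelow.1 p.2).1
    omega

end Pool.Agent.Helper76.Q2
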