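import Pool.Agent.Helper76.Q2.GDa

set_option autoImplicit false

namespace Pool.Agent.Helper76.Q2

open MeasureTheory Set Filter Topology Pool.Agent.Helper57.QZ

open scoped ArithmeticFunction.vonMangoldt

noncomputable def tl (C ε : ℝ) (n : ℕ) : ℝ :=
  (2 + 2 * C) * qq (1 / 2 + ε) n + C * (n : ℝ) ^ (-(7 / 4) : ℝ)

theorem tl_summable (C : ℝ) {ε : ℝ} (hε : 0 < ε) : Summable (tl C ε) :=
  ((qq_summable hε).mul_left _).add ((Real.summable_nat_rpow.2 (by norm_num)).mul_left _)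

theorem tl_nonneg {C : ℝ} (hC : 0 < C) (ε : ℝ) (n : ℕ) : 0 ≤ tl C ε n := by
  have := qq_nonneg (1 / 2 + ε) n
  unfold tl
  positivity

theorem L_le {n : ℕ} (hn : 1 ≤ n) {x : ℝ} (hx : 1 / 2 ≤ x) : Λ n * (n : ℝ) ^ (-x) ≤ 2 := by
  have hn0 : (1:ℝ) ≤ n := by exact_mod_cast hn
  have hn1 : (0:ℝ) < n := by linarith
  have h1 : Λ n ≤ 2 * (n : ℝ) ^ (1 / 2 : ℝ) := by
    refine ArithmeticFunction.vonMangoldt_le_log.trans ?_
    have := Real.log_le_rpow_div hn1.le (show (0:ℝ) < 1 / 2 by norm_num)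
    linarith
  have h2 : (n : ℝ) ^ (-x) ≤ (n : ℝ) ^ (-(1 / 2) : ℝ) :=
    Real.rpow_le_rpow_of_exponent_le hn0 (by linarith)
  calc Λ n * (n : ℝ) ^ (-x) ≤ 2 * (n : ℝ) ^ (1 / 2 : ℝ) * (n : ℝ) ^ (-(1 / 2) : ℝ) := by
        gcongr
    _ = 2 := by
        rw [mul_assoc, ← Real.rpow_add hn1]
        norm_num

theorem Lam_le (n : ℕ) : Λ n ≤ n := by
  refine ArithmeticFunction.vonMangoldt_le_log.trans ?_
  rcases Nat.eq_zero_or_pos n with h | h
  · subst h; simp
  have h1 : (0:ℝ) < n := by exact_mod_cast h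
  have := Real.log_le_sub_one_of_pos h1
  linarith

theorem core {ε : ℝ} (hε : 0 < ε) {C : ℝ} (hC : 0 < C) {z : ℕ} (hz : 2 ≤ z) {x t : ℝ}
    (hx : x ∈ Icc (1 / 2 + ε) 4) (K : ℕ → ℂ) {δ : ℝ} (hδ0 : 0 ≤ δ) (hδ : δ ≤ 1)
    (hK1 : ∀ n : ℕ, 1 ≤ n → ‖K n‖ ≤ C * ((z : ℝ) ^ 3 / n) ^ (5 - x))
    (hK2 : ∀ n : ℕ, 1 ≤ n → (n : ℝ) ≤ (z : ℝ) ^ 3 → ‖K n - 1‖ ≤ C * (n / (z : ℝ) ^ 3 + δ)) :
    ‖(∑' n : ℕ, (-(Λ n : ℂ)) * (n : ℂ) ^ (-(pt x t)) * K n) - Wy z x (lin z t) +
      ∑ p ∈ Pz z, ((Real.log p * (p : ℝ) ^ (-x) : ℝ) : ℂ) * K p *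
        Complex.exp (-((t * Real.log p : ℝ) * Complex.I))‖ ≤
      4 * C * (1 / z + z * δ) + ∑' n : ℕ, tl C ε (n + (z + 1)) := by
  have hx1 : 1 / 2 ≤ x := by linarith [hx.1]
  have hx0 : 0 < x := by linarith
  have hx4 := hx.2
  have hz0 : (2:ℝ) ≤ z := by exact_mod_cast hz
  have hz1 : (0:ℝ) < z := by linarith
  have hY : (1:ℝ) ≤ (z : ℝ) ^ 3 := one_le_pow₀ (by linarith)
  have hY0 : (0:ℝ) < (z : ℝ) ^ 3 := by linarith
  set s := pt x t with hs
  let L : ℕ → ℂ := fun n => (Λ n : ℂ) * (n : ℂ) ^ (-s)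
  have hLn : ∀ n : ℕ, ‖L n‖ = Λ n * (n : ℝ) ^ (-x) := by
    intro n
    rcases Nat.eq_zero_or_pos n with h | h
    · subst h; simp [L]
    · show ‖(Λ n : ℂ) * (n : ℂ) ^ (-s)‖ = _
      rw [norm_mul, hs, ncpw x t h.ne', Complex.norm_real, Real.norm_eq_abs,
        abs_of_nonneg ArithmeticFunction.vonMangoldt_nonneg]
  -- the bound `‖L n‖ ‖K n‖ ≤ C (z³)^(5-x) n^(-4)`
  have hLK : ∀ n : ℕ, ‖L n‖ * ‖K n‖ ≤ C * ((z : ℝ) ^ 3) ^ (5 - x) * (n : ℝ) ^ (-(4:ℝ)) := by
    intro n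
    rcases Nat.eq_zero_or_pos n with h | h
    · subst h
      have : L 0 = 0 := by simp [L]
      rw [this, norm_zero, zero_mul]
      positivity
    · have h0 : (0:ℝ) < n := by exact_mod_cast h
      rw [hLn]
      calc Λ n * (n : ℝ) ^ (-x) * ‖K n‖
          ≤ (n : ℝ) * (n : ℝ) ^ (-x) * (C * ((z : ℝ) ^ 3 / n) ^ (5 - x)) := by
            have := hK1 n h
            have := Lam_le n
            have := @ArithmeticFunction.vonMangoldt_nonneg n
            gcongr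
        _ = C * ((z : ℝ) ^ 3) ^ (5 - x) * ((n : ℝ) ^ (1:ℝ) * (n : ℝ) ^ (-x) *
              (n : ℝ) ^ (-(5 - x))) := by
            rw [Real.div_rpow hY0.le h0.le, Real.rpow_one, Real.rpow_neg h0.le (5 - x)]
            field_simp
        _ = _ := by
            rw [← Real.rpow_add h0, ← Real.rpow_add h0]
            congr 2
            ring
  have hs1 : Summable (fun n : ℕ => (-(Λ n : ℂ)) * (n : ℂ) ^ (-s) * K n) := by
    refine Summable.of_norm_bounded (g := fun n : ℕ =>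
      C * ((z : ℝ) ^ 3) ^ (5 - x) * (n : ℝ) ^ (-(4:ℝ)))
      ((Real.summable_nat_rpow.2 (by norm_num)).mul_left _) (fun n => ?_)
    have : (-(Λ n : ℂ)) * (n : ℂ) ^ (-s) * K n = -(L n * K n) := by
      show _ = -((Λ n : ℂ) * (n : ℂ) ^ (-s) * K n)
      ring
    rw [this, norm_neg, norm_mul]
    exact hLK n
  have hs2 := Wy_hasSum z x t hx0
  have hs3 : HasSum (fun n : ℕ => if n ∈ Pz z then L n * K n else 0)
      (∑ p ∈ Pz z, ((Real.log p * (p : ℝ) ^ (-x) : ℝ) : ℂ) * K p *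
        Complex.exp (-((t * Real.log p : ℝ) * Complex.I))) := by
    have : HasSum (fun n : ℕ => if n ∈ Pz z then L n * K n else 0)
        (∑ n ∈ Pz z, if n ∈ Pz z then L n * K n else 0) :=
      hasSum_sum_of_ne_finset_zero (fun b hb => if_neg hb)
    convert this using 1
    apply Finset.sum_congr rfl
    intro p hp
    rw [if_pos hp]
    have hpp : p.Prime := (Finset.mem_filter.1 hp).2
    show _ = (Λ p : ℂ) * (p : ℂ) ^ (-s) * K p
    rw [hs, cpw x t hpp.ne_zero, ArithmeticFunction.vonMangoldt_apply_prime hpp]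
    push_cast
    ring
  have hD := (hs1.hasSum.add hs2).add hs3
  rw [← sub_eq_add_neg] at hD
  let d : ℕ → ℝ := fun n => if n < z + 1 then 2 * C * (n / (z : ℝ) ^ 3 + δ) else tl C ε n
  have hdt : ∀ n, d (n + (z + 1)) = tl C ε (n + (z + 1)) := fun n => if_neg (by omega)
  have hds : Summable d := by
    rw [← summable_nat_add_iff (z + 1)]
    simp only [hdt]
    exact (summable_nat_add_iff (z + 1)).2 (tl_summable C hε)
  have hdv : ∑' n, d n ≤ 4 * C * (1 / z + z * δ) + ∑' n : ℕ, tl C ε (n + (z + 1)) := by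
    rw [← hds.sum_add_tsum_nat_add (z + 1)]
    simp only [hdt]
    gcongr
    calc ∑ i ∈ Finset.range (z + 1), d i
        ≤ ∑ i ∈ Finset.range (z + 1), 2 * C * (z / (z : ℝ) ^ 3 + δ) := by
          apply Finset.sum_le_sum
          intro i hi
          have hi' : i < z + 1 := Finset.mem_range.1 hi
          have hi2 : (i : ℝ) ≤ z := by exact_mod_cast Nat.lt_succ_iff.1 hi'
          show (if i < z + 1 then 2 * C * (i / (z : ℝ) ^ 3 + δ) else tl C ε i) ≤ _
          rw [if_pos hi']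
          gcongr
      _ = (z + 1) * (2 * C * (z / (z : ℝ) ^ 3 + δ)) := by
          rw [Finset.sum_const, Finset.card_range, nsmul_eq_mul]
          push_cast
          ring
      _ ≤ (2 * z) * (2 * C * (z / (z : ℝ) ^ 3 + δ)) := by
          gcongr
          linarith
      _ = 4 * C * (1 / z + z * δ) := by
          field_simp
          ring
  refine le_trans ?_ hdv
  rw [← hD.tsum_eq]
  refine tsum_of_norm_bounded hds.hasSum (fun n => ?_)
  have hc : (-(Λ n : ℂ)) * (n : ℂ) ^ (-s) * K n +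
      (if n.minFac ≤ z then (Λ n : ℂ) * (n : ℂ) ^ (-(pt x t)) else 0) +
      (if n ∈ Pz z then L n * K n else 0) =
      -(L n * K n) + (if n.minFac ≤ z then L n else 0) +
      (if n ∈ Pz z then L n * K n else 0) := by
    show (-(Λ n : ℂ)) * (n : ℂ) ^ (-s) * K n + _ + _ =
      -((Λ n : ℂ) * (n : ℂ) ^ (-s) * K n) + _ + _
    congr 2
    ring
  show ‖(-(Λ n : ℂ)) * (n : ℂ) ^ (-s) * K n +
      (if n.minFac ≤ z then (Λ n : ℂ) * (n : ℂ) ^ (-(pt x t)) else 0) +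
      (if n ∈ Pz z then L n * K n else 0)‖ ≤ d n
  rw [hc]
  show _ ≤ if n < z + 1 then 2 * C * (n / (z : ℝ) ^ 3 + δ) else tl C ε n
  rcases Nat.eq_zero_or_pos n with hn0 | hn0
  · subst hn0
    have h0 : L 0 = 0 := by simp [L]
    simp only [h0, zero_mul, neg_zero, ite_self, add_zero, norm_zero]
    rw [if_pos (by omega)]
    have h1 : 0 ≤ ((0:ℕ) : ℝ) / (z : ℝ) ^ 3 + δ := by simpa using hδ0
    have h2 : 0 ≤ 2 * C := by linarith
    exact mul_nonneg h2 h1
  have hnr : (1:ℝ) ≤ n := by exact_mod_cast hn0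
  have hnr0 : (0:ℝ) < n := by linarith
  by_cases hnz : n < z + 1
  · rw [if_pos hnz]
    have h1 : n.minFac ≤ z := (Nat.minFac_le hn0).trans (by omega)
    have h2 : n ∉ Pz z := by
      intro h
      have := (Finset.mem_Icc.1 (Finset.mem_filter.1 h).1).1
      omega
    rw [if_pos h1, if_neg h2, add_zero]
    have h3 : -(L n * K n) + L n = -(L n * (K n - 1)) := by ring
    rw [h3, norm_neg, norm_mul]
    have hnz' : (n : ℝ) ≤ z := by exact_mod_cast Nat.lt_succ_iff.1 hnz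
    have h4 : (n : ℝ) ≤ (z : ℝ) ^ 3 := hnz'.trans (le_self_pow₀ (by linarith) (by norm_num))
    have h5 := hK2 n hn0 h4
    have h6 : ‖L n‖ ≤ 2 := by rw [hLn]; exact L_le hn0 hx1
    calc ‖L n‖ * ‖K n - 1‖ ≤ 2 * (C * (n / (z : ℝ) ^ 3 + δ)) := by gcongr
      _ = _ := by ring
  · rw [if_neg hnz]
    have hnz' : z + 1 ≤ n := by omega
    by_cases hp : n.Prime
    · have h1 : ¬ n.minFac ≤ z := by rw [hp.minFac_eq]; omega
      rw [if_neg h1, add_zero]
      by_cases h6 : n ≤ z ^ 6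
      · have h2 : n ∈ Pz z := Finset.mem_filter.2 ⟨Finset.mem_Icc.2 ⟨hnz', h6⟩, hp⟩
        rw [if_pos h2, neg_add_cancel, norm_zero]
        exact tl_nonneg hC ε n
      · have h2 : n ∉ Pz z := by
          intro h
          have := (Finset.mem_Icc.1 (Finset.mem_filter.1 h).1).2
          omega
        rw [if_neg h2, add_zero, norm_neg, norm_mul]
        refine (hLK n).trans ?_
        have h7 : ((z : ℝ) ^ 3) ^ (5 - x) ≤ (n : ℝ) ^ (9 / 4 : ℝ) := by
          have h8 : (z : ℝ) ^ 3 ≤ (n : ℝ) ^ (1 / 2 : ℝ) := by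
            have h9 : ((z : ℝ) ^ 3) ^ 2 ≤ n := by
              rw [← pow_mul]
              have : z ^ 6 ≤ n := by omega
              exact_mod_cast this
            rw [← Real.sqrt_eq_rpow]
            exact Real.le_sqrt_of_sq_le h9
          calc ((z : ℝ) ^ 3) ^ (5 - x) ≤ ((z : ℝ) ^ 3) ^ (9 / 2 : ℝ) :=
                Real.rpow_le_rpow_of_exponent_le hY (by linarith)
            _ ≤ ((n : ℝ) ^ (1 / 2 : ℝ)) ^ (9 / 2 : ℝ) :=
                Real.rpow_le_rpow hY0.le h8 (by norm_num)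
            _ = _ := by
                rw [← Real.rpow_mul hnr0.le]
                norm_num
        have h8 : (n : ℝ) ^ (9 / 4 : ℝ) * (n : ℝ) ^ (-(4:ℝ)) = (n : ℝ) ^ (-(7 / 4) : ℝ) := by
          rw [← Real.rpow_add hnr0]
          norm_num
        have h9 := qq_nonneg (1 / 2 + ε) n
        calc C * ((z : ℝ) ^ 3) ^ (5 - x) * (n : ℝ) ^ (-(4:ℝ))
            ≤ C * (n : ℝ) ^ (9 / 4 : ℝ) * (n : ℝ) ^ (-(4:ℝ)) := by gcongr
          _ = C * (n : ℝ) ^ (-(7 / 4) : ℝ) := by rw [mul_assoc, h8]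
          _ ≤ tl C ε n := by
            unfold tl
            have : 0 ≤ (2 + 2 * C) * qq (1 / 2 + ε) n := by positivity
            linarith
    · have h2 : n ∉ Pz z := fun h => hp (Finset.mem_filter.1 h).2
      rw [if_neg h2, add_zero]
      have hKb : ‖K n‖ ≤ 1 + 2 * C := by
        by_cases h3 : (n : ℝ) ≤ (z : ℝ) ^ 3
        · have h4 := hK2 n hn0 h3
          have h5 : (n : ℝ) / (z : ℝ) ^ 3 ≤ 1 := (div_le_one hY0).2 h3
          calc ‖K n‖ = ‖(K n - 1) + 1‖ := by rw [sub_add_cancel]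
            _ ≤ ‖K n - 1‖ + ‖(1:ℂ)‖ := norm_add_le _ _
            _ ≤ C * (1 + 1) + 1 := by
              rw [norm_one]
              have : C * (n / (z : ℝ) ^ 3 + δ) ≤ C * (1 + 1) := by gcongr
              linarith
            _ = _ := by ring
        · have h4 := hK1 n hn0
          have h5 : (z : ℝ) ^ 3 / n ≤ 1 := (div_le_one hnr0).2 (not_le.1 h3).le
          have h6 : ((z : ℝ) ^ 3 / n) ^ (5 - x) ≤ 1 :=
            Real.rpow_le_one (by positivity) h5 (by linarith)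
          calc ‖K n‖ ≤ C * ((z : ℝ) ^ 3 / n) ^ (5 - x) := h4
            _ ≤ C * 1 := by gcongr
            _ ≤ _ := by linarith
      have hL2 : ‖L n‖ ≤ qq (1 / 2 + ε) n := by
        rw [hLn]
        unfold qq
        rw [if_neg hp]
        have := @ArithmeticFunction.vonMangoldt_nonneg n
        have h3 : (n : ℝ) ^ (-x) ≤ (n : ℝ) ^ (-(1 / 2 + ε)) :=
          Real.rpow_le_rpow_of_exponent_le hnr (by linarith [hx.1])
        gcongr
      have h5 : ‖-(L n * K n) + (if n.minFac ≤ z then L n else 0)‖ ≤ ‖L n‖ * (‖K n‖ + 1) := by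
        refine (norm_add_le _ _).trans ?_
        rw [norm_neg, norm_mul]
        have : ‖(if n.minFac ≤ z then L n else 0)‖ ≤ ‖L n‖ := by
          split_ifs
          · exact le_rfl
          · rw [norm_zero]; exact norm_nonneg _
        linarith
      refine h5.trans ?_
      have h6 := qq_nonneg (1 / 2 + ε) n
      calc ‖L n‖ * (‖K n‖ + 1) ≤ qq (1 / 2 + ε) n * ((1 + 2 * C) + 1) := by gcongr
        _ = (2 + 2 * C) * qq (1 / 2 + ε) n := by ring
        _ ≤ tl C ε n := by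
          unfold tl
          have : 0 ≤ C * (n : ℝ) ^ (-(7 / 4) : ℝ) := by positivity
          linarith

end Pool.Agent.Helper76.Q2
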